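import Pool.Agent.R449.LevelSet

/-!
# MP_0ddcb0_nt: long progressions in sparse lower level sets of convolutions

The answer to the question is negative: for every large prime `N` there is `A ⊆ ℤ/N` with
`|A| > N/4` and `|A + A| ≤ N (1 - 1 / (C log² N))` such that the set
`{x : 1_A * 1_A (x) < N / (C log³ N)}` contains no arithmetic progression of length more than
`C log² N`.

Construction (in `Pool/Agent/R449/LevelSet.lean`): `A` consists of three intervals, whose sums cover
everything except an interval `J` around `0` very often, and of `2 m` short pieces `K_j`, `K'_j`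
(`m ≈ log N / log log N`) such that among these pieces only the sums `K_j + K'_j` meet `J`.  The
elements of `K_j` and `K'_j` are restricted to small residues modulo `(12 m)^j`, so the sums in `J`
have small residues modulo some `(12 m)^j`, which leaves a large part of `J` uncovered; but every
progression in `J` with `(12 m)² + 1` terms meets the numbers with small positive residues modulo
some `(12 m)^j`, and these have many representations.
-/

set_option autoImplicit false

open Finset Filter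
open scoped Pointwise

namespace Pool.Agent.Results.MP_0ddcb0_nt.NoLongProgressions

open Pool.Agent.R449

/-- `1_A * 1_A (x)`: the number of ordered pairs `(a, b) ∈ A × A` with `a + b = x` -/
def conv {N : ℕ} (A : Finset (ZMod N)) (x : ZMod N) : ℕ :=
  ((A ×ˢ A).filter (fun p => p.1 + p.2 = x)).card

/-- `X ⊆ ℤ/N` contains an arithmetic progression `a, a + d, …, a + (k-1) d` with `d ≠ 0` and
`1 ≤ k ≤ N`. -/
def HasAP {N : ℕ} (X : Set (ZMod N)) (k : ℕ) : Prop :=
  1 ≤ k ∧ k ≤ N ∧ ∃ a d : ZMod N, d ≠ 0 ∧ ∀ i : ℕ, i < k → a + (i : ZMod N) * d ∈ X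

/-- the parameters of the construction -/
theorem params (N : ℕ) (hN : 12000 ≤ N) : ∃ m : ℕ, 1 ≤ m ∧ 500 * (m + 1) * (12 * m) ^ m ≤ N ∧
    N < 18000 * (m + 1) * (m + 2) * (12 * m) ^ m := by
  classical
  obtain ⟨m, hm⟩ : ∃ m, m = Nat.findGreatest (fun m => 500 * (m + 1) * (12 * m) ^ m ≤ N) N := ⟨_, rfl⟩
  have h1 : 1 ≤ m := by
    rw [hm]
    exact Nat.le_findGreatest (by omega) (by norm_num; omega)
  have h2 : 500 * (m + 1) * (12 * m) ^ m ≤ N := by
    rw [hm]
    exact Nat.findGreatest_spec (P := fun m => 500 * (m + 1) * (12 * m) ^ m ≤ N) (m := 1) (by omega)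
      (by norm_num; omega)
  have hpos : 1 ≤ (12 * m) ^ m := Nat.one_le_pow _ _ (by omega)
  have h3 : m < N := by
    have : 500 * (m + 1) * 1 ≤ 500 * (m + 1) * (12 * m) ^ m := Nat.mul_le_mul_left _ hpos
    omega
  have h4 : ¬ 500 * (m + 1 + 1) * (12 * (m + 1)) ^ (m + 1) ≤ N := by
    rw [hm]
    rw [hm] at h3
    exact Nat.findGreatest_is_greatest (P := fun m => 500 * (m + 1) * (12 * m) ^ m ≤ N)
      (Nat.lt_succ_self _) (by omega)
  push Not at h4
  refine ⟨m, h1, h2, lt_of_lt_of_le h4 ?_⟩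
  have h5 : (m + 1) ^ m ≤ 3 * m ^ m := by
    have hm0 : (0 : ℝ) < m := by exact_mod_cast h1
    have h6 : ((m : ℝ) + 1) ^ m ≤ 3 * (m : ℝ) ^ m := by
      have e1 : ((m : ℝ) + 1) = m * (1 / m + 1) := by field_simp; ring
      rw [e1, mul_pow, mul_comm]
      apply mul_le_mul_of_nonneg_right _ (by positivity)
      calc (1 / (m : ℝ) + 1) ^ m ≤ (Real.exp (1 / m)) ^ m :=
            pow_le_pow_left₀ (by positivity) (Real.add_one_le_exp _) _
        _ = Real.exp 1 := by
            rw [← Real.exp_nat_mul]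
            congr 1
            field_simp
        _ ≤ 3 := by
            have := Real.exp_one_lt_d9
            linarith
    exact_mod_cast h6
  calc 500 * (m + 1 + 1) * (12 * (m + 1)) ^ (m + 1)
      = 6000 * (m + 1) * (m + 2) * (12 ^ m * (m + 1) ^ m) := by
        rw [pow_succ, mul_pow]
        ring
    _ ≤ 6000 * (m + 1) * (m + 2) * (12 ^ m * (3 * m ^ m)) := by
        apply Nat.mul_le_mul_left
        exact Nat.mul_le_mul_left _ h5
    _ = 18000 * (m + 1) * (m + 2) * (12 * m) ^ m := by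
        rw [mul_pow]
        ring

/-- For every prime `N ≥ 12000` there is a set with constant density, almost full sumset, and no
progression with more than `C log² N` terms in the level set of height `N / (C log³ N)`. -/
theorem strong {N : ℕ} (hN : N.Prime) (hN0 : 12000 ≤ N) :
    ∃ A : Finset (ZMod N), (N : ℝ) / 4 < A.card ∧
      ((A + A).card : ℝ) ≤ N * (1 - 1 / (1296000 * Real.log N ^ 2)) ∧
      ∀ k : ℕ, HasAP {x : ZMod N | (conv A x : ℝ) < N / (1296000 * Real.log N ^ 3)} k →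
        (k : ℝ) ≤ 1296000 * Real.log N ^ 2 := by
  have : NeZero N := ⟨hN.ne_zero⟩
  obtain ⟨m, hm, h1, h2⟩ := params N hN0
  obtain ⟨g, hg⟩ : ∃ g, g = (12 * m) ^ m := ⟨_, rfl⟩
  rw [← hg] at h1 h2
  have hg1 : 1 ≤ g := by
    rw [hg]
    exact Nat.one_le_pow _ _ (by omega)
  obtain ⟨u, hu⟩ : ∃ u, u = N / 100 := ⟨_, rfl⟩
  have hN1 : 100 * u ≤ N := by omega
  have hN2 : N < 100 * u + 100 := by omega
  have hu100 : 100 ≤ u := by omega
  have hu1 : 4 * (g * m) + 4 * g ≤ u := by
    have e1 : 500 * (m + 1) * g = 100 * (5 * (g * m) + 5 * g) := by ring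
    rw [e1] at h1
    omega
  have hNpos : (0 : ℝ) < N := by
    have : 0 < N := by omega
    exact_mod_cast this
  have hm0 : (1 : ℝ) ≤ m := by exact_mod_cast hm
  -- `m ≤ log N`
  have hlog : (m : ℝ) ≤ Real.log N := by
    rw [Real.le_log_iff_exp_le hNpos]
    calc Real.exp m = Real.exp 1 ^ m := by rw [← Real.exp_nat_mul]; simp
      _ ≤ (12 * m : ℝ) ^ m := by
          apply pow_le_pow_left₀ (Real.exp_pos _).le
          have := Real.exp_one_lt_d9
          linarith
      _ = (g : ℝ) := by rw [hg]; push_cast; ring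
      _ ≤ N := by
          have : g ≤ N := by
            have hgm : g ≤ g * m := Nat.le_mul_of_pos_right g hm
            omega
          exact_mod_cast this
  obtain ⟨l, hl⟩ : ∃ l, l = Real.log N := ⟨_, rfl⟩
  rw [← hl] at hlog ⊢
  have hl0 : 0 < l := by linarith
  have hgN : (N : ℝ) ≤ 108000 * m ^ 2 * g := by
    have e1 : (N : ℝ) ≤ 18000 * (m + 1) * (m + 2) * g := by exact_mod_cast h2.le
    have e2 : ((m : ℝ) + 1) * (m + 2) ≤ 6 * m ^ 2 := by nlinarith
    have hg0 : (0 : ℝ) ≤ g := by positivity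
    calc (N : ℝ) ≤ 18000 * (((m : ℝ) + 1) * (m + 2)) * g := by linarith
      _ ≤ 18000 * (6 * m ^ 2) * g := by gcongr
      _ = 108000 * m ^ 2 * g := by ring
  have hml : (m : ℝ) ^ 2 ≤ l ^ 2 := by gcongr
  refine ⟨LevelSet.AA N u g (12 * m) m, ?_, ?_, ?_⟩
  · have h3 := LevelSet.card_A (g := g) (B := 12 * m) (m := m) hN1 hN2 hu100
    rw [div_lt_iff₀ (by norm_num)]
    exact_mod_cast (by linarith : N < (LevelSet.AA N u g (12 * m) m).card * 4)
  · have h3 := LevelSet.card_sum (B := 12 * m) hg1 hu1 hN1 hN2 hu100 hm rfl hg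
    have h4 : (4 : ℝ) * ((LevelSet.AA N u g (12 * m) m + LevelSet.AA N u g (12 * m) m).card : ℝ) +
        3 * g ≤ 4 * N := by exact_mod_cast h3
    have h5 : (N : ℝ) * (1 / (1296000 * l ^ 2)) ≤ g * (3 / 4) := by
      rw [mul_one_div, div_le_iff₀ (by positivity)]
      calc (N : ℝ) ≤ 108000 * m ^ 2 * g := hgN
        _ ≤ 108000 * l ^ 2 * g := by gcongr
        _ ≤ (g : ℝ) * (3 / 4) * (1296000 * l ^ 2) := by
            have : (0 : ℝ) ≤ l ^ 2 * g := by positivity
            nlinarith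
    linarith
  · intro k hk
    have h3 := LevelSet.no_ap (B := 12 * m) hg1 hu1 hN1 hN2 hu100 (by omega) hm hg
    have h4 : k ≤ (12 * m) ^ 2 := by
      by_contra hcon
      push Not at hcon
      obtain ⟨-, hk1, a, d, hd, hap⟩ := hk
      apply h3
      refine ⟨by omega, a, d, hd, fun i hi => ?_⟩
      have h5 := hap i (by omega)
      have h6 : ((LevelSet.rep (LevelSet.AA N u g (12 * m) m) (a + (i : ZMod N) * d) : ℕ) : ℝ) <
          N / (1296000 * l ^ 3) := h5
      show LevelSet.rep (LevelSet.AA N u g (12 * m) m) (a + (i : ZMod N) * d) < (12 * m) ^ (m - 1)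
      have h7 : (N : ℝ) / (1296000 * l ^ 3) ≤ ((12 * m) ^ (m - 1) : ℕ) := by
        rw [div_le_iff₀ (by positivity)]
        have h8 : (g : ℝ) = 12 * m * ((12 * m) ^ (m - 1) : ℕ) := by
          have : g = 12 * m * (12 * m) ^ (m - 1) := by
            rw [hg, ← pow_succ']
            congr 1
            omega
          exact_mod_cast this
        have h9 : (0 : ℝ) ≤ (((12 * m) ^ (m - 1) : ℕ) : ℝ) := by positivity
        calc (N : ℝ) ≤ 108000 * m ^ 2 * g := hgN
          _ = (((12 * m) ^ (m - 1) : ℕ) : ℝ) * (1296000 * (m : ℝ) ^ 3) := by rw [h8]; ring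
          _ ≤ (((12 * m) ^ (m - 1) : ℕ) : ℝ) * (1296000 * l ^ 3) := by gcongr
      exact_mod_cast lt_of_lt_of_le h6 h7
    have h5 : (k : ℝ) ≤ 144 * m ^ 2 := by
      have : (k : ℝ) ≤ ((12 * m) ^ 2 : ℕ) := by exact_mod_cast h4
      push_cast at this
      linarith
    nlinarith [sq_nonneg l]

/-- The statement Q1: there are absolute constants `c₁, c₂, c₃, c₄ ∈ (0, 1)` and `N₀` such that for
every prime `N ≥ N₀` and every `A ⊆ ℤ/N` with `|A| > N exp (-(log N)^c₁)` and
`|A + A| ≤ N (1 - exp (-(log N)^c₂))` the set `{x : 1_A * 1_A (x) < N exp (-(log N)^c₃)}` contains an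
arithmetic progression of length at least `exp ((log N)^c₄)`. -/
def Q1 : Prop :=
  ∃ c₁ c₂ c₃ c₄ : ℝ, c₁ ∈ Set.Ioo (0 : ℝ) 1 ∧ c₂ ∈ Set.Ioo (0 : ℝ) 1 ∧ c₃ ∈ Set.Ioo (0 : ℝ) 1 ∧
    c₄ ∈ Set.Ioo (0 : ℝ) 1 ∧ ∃ N₀ : ℕ, ∀ N : ℕ, N₀ ≤ N → N.Prime → ∀ A : Finset (ZMod N),
      (N : ℝ) * Real.exp (-(Real.log N) ^ c₁) < A.card →
      ((A + A).card : ℝ) ≤ N * (1 - Real.exp (-(Real.log N) ^ c₂)) →
      ∃ k : ℕ, Real.exp ((Real.log N) ^ c₄) ≤ k ∧
        HasAP {x : ZMod N | (conv A x : ℝ) < N * Real.exp (-(Real.log N) ^ c₃)} k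

theorem exp_beats (c : ℝ) (hc : 0 < c) (K : ℝ) (n : ℕ) :
    ∀ᶠ l : ℝ in atTop, K * l ^ n < Real.exp (l ^ c) := by
  have h1 : ∀ᶠ y : ℝ in atTop, (|K| + 1) * y ^ ((n : ℝ) / c) < Real.exp y := by
    have h2 := (isLittleO_rpow_exp_atTop ((n : ℝ) / c)).bound
      (show (0 : ℝ) < 1 / (2 * (|K| + 1)) by positivity)
    filter_upwards [h2, eventually_ge_atTop 0] with y h2 h3
    rw [Real.norm_eq_abs, Real.norm_eq_abs, abs_of_nonneg (by positivity),
      abs_of_pos (Real.exp_pos y)] at h2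
    have h4 : 0 < |K| + 1 := by positivity
    have h5 : (|K| + 1) * y ^ ((n : ℝ) / c) ≤ 1 / 2 * Real.exp y := by
      calc (|K| + 1) * y ^ ((n : ℝ) / c) ≤ (|K| + 1) * (1 / (2 * (|K| + 1)) * Real.exp y) := by gcongr
        _ = 1 / 2 * Real.exp y := by field_simp
    have := Real.exp_pos y
    linarith
  filter_upwards [(tendsto_rpow_atTop hc).eventually h1, eventually_ge_atTop 0] with l hl h0
  rw [← Real.rpow_mul h0, mul_div_cancel₀ _ hc.ne', Real.rpow_natCast] at hl
  have h3 : K * l ^ n ≤ (|K| + 1) * l ^ n := by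
    have h4 : K ≤ |K| + 1 := by
      have := le_abs_self K
      linarith
    have h5 : 0 ≤ l ^ n := by positivity
    nlinarith
  linarith

/-- **The answer to Q1 is negative**, in a strong form: for every large prime `N` there is
`A ⊆ ℤ/N` with `|A| > N/4` and `|A + A| ≤ N (1 - 1/(C log² N))` such that every arithmetic
progression in `{x : 1_A * 1_A (x) < N / (C log³ N)}` has at most `C log² N` terms. -/
theorem result :
    ¬ Q1 ∧
    ∃ C : ℝ, 0 < C ∧ ∃ N₀ : ℕ, ∀ N : ℕ, N₀ ≤ N → N.Prime →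
      ∃ A : Finset (ZMod N), (N : ℝ) / 4 < A.card ∧
        ((A + A).card : ℝ) ≤ N * (1 - 1 / (C * Real.log N ^ 2)) ∧
        ∀ k : ℕ, HasAP {x : ZMod N | (conv A x : ℝ) < N / (C * Real.log N ^ 3)} k →
          (k : ℝ) ≤ C * Real.log N ^ 2 := by
  refine ⟨?_, 1296000, by norm_num, 12000, fun N h1 h2 => strong h2 h1⟩
  rintro ⟨c₁, c₂, c₃, c₄, hc₁, hc₂, hc₃, hc₄, N₀, H⟩
  have hlim : Tendsto (fun N : ℕ => Real.log (N : ℝ)) atTop atTop :=
    Real.tendsto_log_atTop.comp tendsto_natCast_atTop_atTop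
  have hev := (hlim.eventually (exp_beats c₁ hc₁.1 4 0)).and
    ((hlim.eventually (exp_beats c₂ hc₂.1 1296000 2)).and
    ((hlim.eventually (exp_beats c₃ hc₃.1 1296000 3)).and
    (hlim.eventually (exp_beats c₄ hc₄.1 1296000 2))))
  obtain ⟨N₁, hN₁⟩ := eventually_atTop.1 hev
  obtain ⟨N, hNle, hN⟩ := Nat.exists_infinite_primes (max (max N₀ N₁) 12000)
  have hN0 : N₀ ≤ N := (le_max_left _ _).trans ((le_max_left _ _).trans hNle)
  have hN1 : N₁ ≤ N := (le_max_right _ _).trans ((le_max_left _ _).trans hNle)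
  have hN2 : 12000 ≤ N := (le_max_right _ _).trans hNle
  obtain ⟨e1, e2, e3, e4⟩ := hN₁ N hN1
  obtain ⟨A, hA1, hA2, hA3⟩ := strong hN hN2
  have hNpos : (0 : ℝ) < N := by
    have : 0 < N := by omega
    exact_mod_cast this
  have hlog : 0 < Real.log N := Real.log_pos (by
    have : 1 < N := by omega
    exact_mod_cast this)
  obtain ⟨k, hk1, hk2⟩ := H N hN0 hN A (by
    refine lt_of_le_of_lt ?_ hA1
    rw [Real.exp_neg, ← div_eq_mul_inv]
    apply div_le_div_of_nonneg_left hNpos.le (by norm_num)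
    rw [pow_zero, mul_one] at e1
    exact e1.le) (by
    refine hA2.trans ?_
    apply mul_le_mul_of_nonneg_left _ hNpos.le
    rw [Real.exp_neg, ← one_div]
    have := one_div_le_one_div_of_le (by positivity) e2.le
    linarith)
  have hk3 : (k : ℝ) ≤ 1296000 * Real.log N ^ 2 := by
    apply hA3 k
    obtain ⟨h1, h2, a, d, hd, h3⟩ := hk2
    refine ⟨h1, h2, a, d, hd, fun i hi => ?_⟩
    have h4 : (conv A (a + (i : ZMod N) * d) : ℝ) < N * Real.exp (-(Real.log N) ^ c₃) := h3 i hi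
    refine lt_of_lt_of_le h4 ?_
    rw [Real.exp_neg, ← div_eq_mul_inv]
    exact div_le_div_of_nonneg_left hNpos.le (by positivity) e3.le
  linarith

end Pool.Agent.Results.MP_0ddcb0_nt.NoLongProgressions
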